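import Pool.Agent.H89.BH.Exp

/-!
# Row M_A of the board bh_modules: unfolding of the fourth moment
-/

set_option autoImplicit false

open NumberField NumberField.InfinitePlace MeasureTheory Set Filter Complex
open scoped nonZeroDivisors ENNReal

namespace Pool.Agent.H89.BH

open Pool.Agent.H25.HK Pool.Agent.H29.DW Pool.Agent.H29.BH
open Pool.Agent.H28.RC (Rep)
open Pool.Agent.H23.BG (c4M)

section NF

variable {K : Type} [Field K] [NumberField K]

theorem measurable_HE {k : InfinitePlace K → ℤ} {μ : InfinitePlace K → ℂ} {B : ℝ}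
    {A : InfinitePlace K → ℂ → ℂ → ℂ} (hA : Amp B A) (p q s : InfinitePlace K → ℂ) :
    Measurable fun w : (InfinitePlace K → ℂ) × (InfinitePlace K → ℂ) =>
      HE k μ A p q s w.1 w.2 := by
  unfold HE
  apply Finset.measurable_fun_prod
  intro v _
  exact (measurable_gE (r := rv v) (k := k v) (μ := μ v) (hA.meas v) (p v) (q v) (s v)).comp
    (f := fun w : (InfinitePlace K → ℂ) × (InfinitePlace K → ℂ) => (w.1 v, w.2 v)) (by fun_prop)

/-- the integrals over the fundamental domain -/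
theorem slice (f : Ideal (𝓞 K)) (L : FI K) (y : InfinitePlace K → ℝ)
    (F : Set (InfinitePlace K → ℂ)) (X : Finset K)
    (c : K → ℂ) (k : InfinitePlace K → ℤ) (μ : InfinitePlace K → ℂ) (B : ℝ)
    (A : InfinitePlace K → ℂ → ℂ → ℂ) (hF : FS ((f : FI K) * L) y F) (hX : Rep K f L X)
    (hper : ∀ x ∈ L, ∀ l ∈ (f : FI K) * L, c (x + l) = c x)
    (hA : Amp B A) (T : Finset K) (hTL : ∀ x ∈ T, x ∈ L)
    (hT : ∀ x ∈ L, (∀ v, ‖sy y x v‖ ≤ 1 / 4) → x ∈ T) (z : InfinitePlace K → ℂ)
    (hz : ∀ v, Rl (rv v) (z v))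
    (hint : ∀ p ∈ T, ∀ q ∈ T, ∀ s ∈ T,
      Integrable (fun b => HE k μ A (sy y p) (sy y q) (sy y s) b z) (mK K)) :
    0 ≤ (∑ p ∈ T, ∑ q ∈ T, ∑ s ∈ T, c4M K X c (qd p q s) *
      ∫ b, HE k μ A (sy y p) (sy y q) (sy y s) b z ∂mK K).re ∧
    ∫⁻ ζ in F, ENNReal.ofReal (‖TT c L y (PhA k μ A) ζ z‖ ^ 4) ∂mK K =
      ENNReal.ofReal (∑ p ∈ T, ∑ q ∈ T, ∑ s ∈ T, c4M K X c (qd p q s) *
        ∫ b, HE k μ A (sy y p) (sy y q) (sy y s) b z ∂mK K).re := by
  set G : (InfinitePlace K → ℂ) → ℂ := fun ζ => ∑ r ∈ X, ∑ p ∈ T, ∑ q ∈ T, ∑ s ∈ T,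
    C4 c r p q s * ∑' l : {l : K // l ∈ (f : FI K) * L},
      HE k μ A (sy y p) (sy y q) (sy y s) (fun v => sy y r v - (ζ v + sy y l.1 v)) z with hG
  have hmeas : ∀ p q s : K, Measurable fun b => HE k μ A (sy y p) (sy y q) (sy y s) b z :=
    fun p q s => (measurable_HE (k := k) (μ := μ) hA (sy y p) (sy y q) (sy y s)).comp
      (f := fun b : InfinitePlace K → ℂ => (b, z)) (by fun_prop)
  have hmp : ∀ r : K, MeasurePreserving (fun (w : InfinitePlace K → ℂ) v => sy y r v - w v)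
      (mK K) (mK K) := fun r => mpK (sy y r) (Rl_sy y r)
  have hU : ∀ r : K, ∀ p ∈ T, ∀ q ∈ T, ∀ s ∈ T,
      Integrable (fun ζ : InfinitePlace K → ℂ => ∑' l : {l : K // l ∈ (f : FI K) * L},
        HE k μ A (sy y p) (sy y q) (sy y s) (fun v => sy y r v - (ζ v + sy y l.1 v)) z)
          ((mK K).restrict F) ∧
      ∫ ζ in F, ∑' l : {l : K // l ∈ (f : FI K) * L},
        HE k μ A (sy y p) (sy y q) (sy y s) (fun v => sy y r v - (ζ v + sy y l.1 v)) z ∂mK K =
      ∫ b, HE k μ A (sy y p) (sy y q) (sy y s) b z ∂mK K := by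
    intro r p hp q hq s hs
    have h1 := unfold_int ((f : FI K) * L) y F hF
      (fun b => HE k μ A (sy y p) (sy y q) (sy y s) (fun v => sy y r v - b v) z)
      ((hmeas p q s).comp (f := fun (b : InfinitePlace K → ℂ) v => sy y r v - b v)
        (by fun_prop))
      ((hmp r).integrable_comp_of_integrable (hint p hp q hq s hs))
    refine ⟨h1.1, h1.2.trans ?_⟩
    have h2 := integral_map (μ := mK K) (hmp r).measurable.aemeasurable
      (f := fun b => HE k μ A (sy y p) (sy y q) (sy y s) b z)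
      (by rw [(hmp r).map_eq]; exact (hmeas p q s).aestronglyMeasurable)
    rw [(hmp r).map_eq] at h2
    exact h2.symm
  have hGi : Integrable G ((mK K).restrict F) := by
    refine integrable_finsetSum _ fun r _ => integrable_finsetSum _ fun p hp =>
      integrable_finsetSum _ fun q hq => integrable_finsetSum _ fun s hs => ?_
    exact (hU r p hp q hq s hs).1.const_mul _
  have hGint : ∫ ζ in F, G ζ ∂mK K = ∑ p ∈ T, ∑ q ∈ T, ∑ s ∈ T, c4M K X c (qd p q s) *
      ∫ b, HE k μ A (sy y p) (sy y q) (sy y s) b z ∂mK K := by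
    simp only [hG]
    rw [integral_finsetSum _ fun r _ => integrable_finsetSum _ fun p hp =>
      integrable_finsetSum _ fun q hq => integrable_finsetSum _ fun s hs =>
        (hU r p hp q hq s hs).1.const_mul _]
    have h1 : ∀ r ∈ X, ∫ ζ in F, ∑ p ∈ T, ∑ q ∈ T, ∑ s ∈ T, C4 c r p q s *
        ∑' l : {l : K // l ∈ (f : FI K) * L}, HE k μ A (sy y p) (sy y q) (sy y s)
          (fun v => sy y r v - (ζ v + sy y l.1 v)) z ∂mK K =
        ∑ p ∈ T, ∑ q ∈ T, ∑ s ∈ T, C4 c r p q s *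
          ∫ b, HE k μ A (sy y p) (sy y q) (sy y s) b z ∂mK K := by
      intro r _
      rw [integral_finsetSum _ fun p hp =>
        integrable_finsetSum _ fun q hq => integrable_finsetSum _ fun s hs =>
          (hU r p hp q hq s hs).1.const_mul _]
      refine Finset.sum_congr rfl fun p hp => ?_
      rw [integral_finsetSum _ fun q hq => integrable_finsetSum _ fun s hs =>
          (hU r p hp q hq s hs).1.const_mul _]
      refine Finset.sum_congr rfl fun q hq => ?_
      rw [integral_finsetSum _ fun s hs => (hU r p hp q hq s hs).1.const_mul _]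
      refine Finset.sum_congr rfl fun s hs => ?_
      rw [integral_const_mul, (hU r p hp q hq s hs).2]
    rw [Finset.sum_congr rfl h1, Finset.sum_comm]
    refine Finset.sum_congr rfl fun p _ => ?_
    rw [Finset.sum_comm]
    refine Finset.sum_congr rfl fun q _ => ?_
    rw [Finset.sum_comm]
    refine Finset.sum_congr rfl fun s _ => ?_
    rw [← Finset.sum_mul]
    congr 1
    unfold c4M C4 qd
    refine Finset.sum_congr rfl fun r _ => ?_
    simp only [Matrix.cons_val_zero, Matrix.cons_val_one, Matrix.cons_val, add_zero]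
  have hae : ∀ᵐ ζ ∂(mK K).restrict F, ‖TT c L y (PhA k μ A) ζ z‖ ^ 4 = (G ζ).re := by
    filter_upwards [ae_restrict_of_ae (s := F) (ae_RlK (K := K))] with ζ hζ
    have h1 := expand f L y X c k μ B A hX hper hA T hTL hT ζ z hζ hz
    have h2 : (((‖TT c L y (PhA k μ A) ζ z‖ ^ 4 : ℝ)) : ℂ) = G ζ := h1
    have h3 := congrArg Complex.re h2
    rwa [Complex.ofReal_re] at h3
  have hGre : Integrable (fun ζ => (G ζ).re) ((mK K).restrict F) := hGi.re
  have hnn : 0 ≤ᵐ[(mK K).restrict F] fun ζ => (G ζ).re := by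
    filter_upwards [hae] with ζ h
    rw [← h]
    positivity
  have hre : ∫ ζ in F, (G ζ).re ∂mK K = (∫ ζ in F, G ζ ∂mK K).re := integral_re hGi
  rw [← hGint, ← hre]
  refine ⟨integral_nonneg_of_ae hnn, ?_⟩
  rw [ofReal_integral_eq_lintegral_ofReal hGre hnn]
  apply lintegral_congr_ae
  filter_upwards [hae] with ζ h
  rw [h]

end NF

theorem pf_M_A (hPI : M_PI) (hNV : K_NV) (hNB : K_NB) : M_A := by
  intro K _ _ f L y F X c k μ B A hf hL hF hX hc hper hQ hA
  classical
  obtain ⟨T, hTL, hT⟩ := exists_T hNB L hL y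
  set M := max ((B * Real.exp 8) ^ 4) 3 with hM
  have hP : ∀ p q s : K,
      Integrable (fun w : (InfinitePlace K → ℂ) × (InfinitePlace K → ℂ) =>
        HE k μ A (sy y p) (sy y q) (sy y s) w.1 w.2) ((mK K).prod (mK K)) ∧
      ENNReal.ofReal ‖∫ b, ∫ z, HE k μ A (sy y p) (sy y q) (sy y s) b z ∂mK K ∂mK K‖ ≤
        ∏ v : InfinitePlace K, Jv (rv v) (k v) (μ v) (A v)
          (qd (sy y p v) (sy y q v) (sy y s v)) := by
    intro p q s
    have h1 := hPI K (fun v => gE (rv v) (k v) (μ v) (A v) (sy y p v) (sy y q v) (sy y s v)) M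
      (fun v => measurable_gE (hA.meas v) _ _ _)
      (fun v b z => gE_bound (hQ.loc v).re (hA.smooth v) (hA.bound v) _ _ _ b z)
    refine ⟨h1.1, h1.2.trans (le_of_eq ?_)⟩
    exact Finset.prod_congr rfl fun v _ => Jv_eq _ _ _ (Rl_sy y p v) (Rl_sy y q v) (Rl_sy y s v)
  have hae : ∀ᵐ z ∂mK K, (∀ v, Rl (rv v) (z v)) ∧ ∀ p ∈ T, ∀ q ∈ T, ∀ s ∈ T,
      Integrable (fun b => HE k μ A (sy y p) (sy y q) (sy y s) b z) (mK K) := by
    refine ae_RlK.and ?_
    refine (Filter.eventually_all_finset T).mpr fun p _ =>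
      (Filter.eventually_all_finset T).mpr fun q _ =>
        (Filter.eventually_all_finset T).mpr fun s _ => ?_
    exact (hP p q s).1.prod_left_ae
  set R : (InfinitePlace K → ℂ) → ℂ := fun z => ∑ p ∈ T, ∑ q ∈ T, ∑ s ∈ T,
    c4M K X c (qd p q s) * ∫ b, HE k μ A (sy y p) (sy y q) (sy y s) b z ∂mK K with hR
  have hsl := fun z (h : (∀ v, Rl (rv v) (z v)) ∧ ∀ p ∈ T, ∀ q ∈ T, ∀ s ∈ T,
      Integrable (fun b => HE k μ A (sy y p) (sy y q) (sy y s) b z) (mK K)) =>
    slice f L y F X c k μ B A hF hX hper hA T hTL hT z h.1 h.2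
  have hI : ∀ p q s : K, Integrable (fun z =>
      ∫ b, HE k μ A (sy y p) (sy y q) (sy y s) b z ∂mK K) (mK K) := fun p q s =>
    (hP p q s).1.integral_prod_right
  have hRi : Integrable R (mK K) := by
    refine integrable_finsetSum _ fun p _ => integrable_finsetSum _ fun q _ =>
      integrable_finsetSum _ fun s _ => ?_
    exact (hI p q s).const_mul _
  have h1 : ∫⁻ z, ∫⁻ ζ in F, ENNReal.ofReal (‖TT c L y (PhA k μ A) ζ z‖ ^ 4) ∂mK K ∂mK K =
      ∫⁻ z, ENNReal.ofReal (R z).re ∂mK K := by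
    apply lintegral_congr_ae
    filter_upwards [hae] with z hz
    exact (hsl z hz).2
  have hnn : 0 ≤ᵐ[mK K] fun z => (R z).re := by
    filter_upwards [hae] with z hz
    exact (hsl z hz).1
  have hre : ∫ z, (R z).re ∂mK K = (∫ z, R z ∂mK K).re := integral_re hRi
  have hRre : Integrable (fun z => (R z).re) (mK K) := hRi.re
  rw [h1, ← ofReal_integral_eq_lintegral_ofReal hRre hnn]
  have h2 : ∫ z, R z ∂mK K = ∑ p ∈ T, ∑ q ∈ T, ∑ s ∈ T, c4M K X c (qd p q s) *
      ∫ b, ∫ z, HE k μ A (sy y p) (sy y q) (sy y s) b z ∂mK K ∂mK K := by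
    simp only [hR]
    rw [integral_finsetSum _ fun p _ => integrable_finsetSum _ fun q _ =>
      integrable_finsetSum _ fun s _ => (hI p q s).const_mul _]
    refine Finset.sum_congr rfl fun p _ => ?_
    rw [integral_finsetSum _ fun q _ => integrable_finsetSum _ fun s _ =>
      (hI p q s).const_mul _]
    refine Finset.sum_congr rfl fun q _ => ?_
    rw [integral_finsetSum _ fun s _ => (hI p q s).const_mul _]
    refine Finset.sum_congr rfl fun s _ => ?_
    rw [integral_const_mul]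
    congr 1
    exact (integral_integral_swap (f := fun b z =>
      HE k μ A (sy y p) (sy y q) (sy y s) b z) (hP p q s).1).symm
  calc ENNReal.ofReal (∫ z, (R z).re ∂mK K)
      ≤ ENNReal.ofReal ‖∫ z, R z ∂mK K‖ := by
        rw [hre]
        exact ENNReal.ofReal_le_ofReal (Complex.re_le_norm _)
    _ ≤ ∑ p ∈ T, ∑ q ∈ T, ∑ s ∈ T, ENNReal.ofReal ‖c4M K X c (qd p q s)‖ *
          ∏ v : InfinitePlace K, Jv (rv v) (k v) (μ v) (A v)
            (qd (sy y p v) (sy y q v) (sy y s v)) := by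
        rw [h2, ofReal_norm]
        refine (enorm_sum_le _ _).trans (Finset.sum_le_sum fun p _ => ?_)
        refine (enorm_sum_le _ _).trans (Finset.sum_le_sum fun q _ => ?_)
        refine (enorm_sum_le _ _).trans (Finset.sum_le_sum fun s _ => ?_)
        rw [enorm_mul, ← ofReal_norm, ← ofReal_norm]
        gcongr
        exact (hP p q s).2
    _ ≤ _ := by
        refine (sum_le_tsum_L L T hTL _).trans (ENNReal.tsum_le_tsum fun p => ?_)
        refine (sum_le_tsum_L L T hTL _).trans (ENNReal.tsum_le_tsum fun q => ?_)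
        exact sum_le_tsum_L L T hTL (fun s => ENNReal.ofReal ‖c4M K X c (qd p.1 q.1 s)‖ *
          ∏ v : InfinitePlace K, Jv (rv v) (k v) (μ v) (A v)
            (qd (sy y p.1 v) (sy y q.1 v) (sy y s v)))

end Pool.Agent.H89.BH
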