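import Pool.Agent.H29.BH.Targets2

/-!
Measure theory on the product of the completions, for the row M_A of the board bh_modules.
-/

set_option autoImplicit false

open NumberField NumberField.InfinitePlace MeasureTheory Set Filter Complex
open scoped nonZeroDivisors ENNReal

namespace Pool.Agent.H89.BH

open Pool.Agent.H25.HK Pool.Agent.H29.DW Pool.Agent.H29.BH

theorem countable_K (K : Type) [Field K] [NumberField K] : Countable K := by
  have h := Algebra.IsAlgebraic.cardinalMk_le_max ℚ K
  have h2 : Cardinal.mk K ≤ Cardinal.aleph0 := by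
    simpa using h
  exact Cardinal.mk_le_aleph0_iff.mp h2

theorem meas_Rl (r : Bool) : MeasurableSet {w : ℂ | Rl r w} := by
  unfold Rl
  cases r
  · simp
  · have : {w : ℂ | true = true → w.im = 0} = Complex.im ⁻¹' {0} := by
      ext w
      simp
    rw [this]
    exact Complex.measurable_im (measurableSet_singleton 0)

theorem ae_Rl (r : Bool) : ∀ᵐ w ∂mz r, Rl r w := by
  cases r
  · exact Eventually.of_forall fun w h => by cases h
  · unfold mz
    simp only [if_true]
    rw [ae_map_iff Complex.measurable_ofReal.aemeasurable (meas_Rl true)]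
    exact Eventually.of_forall fun x _ => by simp

theorem mp_sub (r : Bool) (a : ℂ) (ha : Rl r a) :
    MeasurePreserving (fun w => a - w) (mz r) (mz r) := by
  cases r
  · unfold mz
    simp only [Bool.false_eq_true, if_false]
    exact Measure.measurePreserving_sub_left volume a
  · refine ⟨by fun_prop, ?_⟩
    unfold mz
    simp only [if_true]
    rw [Measure.map_map (by fun_prop) Complex.measurable_ofReal]
    have ha' : a = ((a.re : ℝ) : ℂ) := by
      apply Complex.ext
      · simp
      · simp [ha rfl]
    have e : ((fun w : ℂ => a - w) ∘ fun x : ℝ => (x : ℂ)) =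
        (fun x : ℝ => (x : ℂ)) ∘ fun x : ℝ => a.re - x := by
      funext x
      simp only [Function.comp]
      rw [ha']
      push_cast
      simp
    rw [e, ← Measure.map_map Complex.measurable_ofReal (by fun_prop),
      (Measure.measurePreserving_sub_left volume a.re).map_eq]

section NF

variable {K : Type} [Field K] [NumberField K]

instance instSFK : SigmaFinite (mK K) := by
  unfold mK
  infer_instance

theorem ae_RlK : ∀ᵐ w ∂mK K, ∀ v, Rl (rv v) (w v) := by
  rw [ae_all_iff]
  intro v
  exact (Measure.tendsto_eval_ae_ae (μ := fun v : InfinitePlace K => mz (rv v)) (i := v)).eventually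
    (ae_Rl (rv v))

theorem mpK (a : InfinitePlace K → ℂ) (ha : ∀ v, Rl (rv v) (a v)) :
    MeasurePreserving (fun (w : InfinitePlace K → ℂ) v => a v - w v) (mK K) (mK K) := by
  unfold mK
  exact measurePreserving_pi (fun v : InfinitePlace K => mz (rv v))
    (fun v : InfinitePlace K => mz (rv v)) (f := fun v w => a v - w)
    fun v => mp_sub (rv v) (a v) (ha v)

theorem Rl_sy (y : InfinitePlace K → ℝ) (x : K) (v : InfinitePlace K) : Rl (rv v) (sy y x v) := by
  intro h
  have hv : v.IsReal := by
    unfold rv at h
    simpa using h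
  unfold sy
  have h1 : (v.embedding x).im = 0 := by
    have h2 := InfinitePlace.isReal_iff.mp hv
    exact Complex.conj_eq_iff_im.mp (by
      have := congrFun (congrArg DFunLike.coe h2) x
      simpa [ComplexEmbedding.conjugate] using this)
  rw [Complex.mul_im, h1, Complex.ofReal_im]
  ring

theorem sy_add (y : InfinitePlace K → ℝ) (x x' : K) (v : InfinitePlace K) :
    sy y (x + x') v = sy y x v + sy y x' v := by
  unfold sy
  rw [map_add]
  ring

theorem sy_neg (y : InfinitePlace K → ℝ) (x : K) (v : InfinitePlace K) :
    sy y (-x) v = -sy y x v := by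
  unfold sy
  rw [map_neg]
  ring

theorem sy_sub (y : InfinitePlace K → ℝ) (x x' : K) (v : InfinitePlace K) :
    sy y (x - x') v = sy y x v - sy y x' v := by
  unfold sy
  rw [map_sub]
  ring

theorem sy_zero (y : InfinitePlace K → ℝ) (v : InfinitePlace K) : sy y (0 : K) v = 0 := by
  unfold sy
  simp

/-- the measure is the sum of the translates of its restriction to a fundamental domain -/
theorem mK_sum (I : FI K) (y : InfinitePlace K → ℝ) (F : Set (InfinitePlace K → ℂ))
    (hF : FS I y F) :
    mK K = Measure.sum fun x : {x : K // x ∈ I} =>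
      ((mK K).restrict F).map (fun ζ v => ζ v + sy y x.1 v) := by
  have := countable_K K
  ext s hs
  rw [Measure.sum_apply _ hs]
  have h := hF.2 (s.indicator 1) (measurable_one.indicator hs)
  rw [lintegral_indicator_one hs] at h
  rw [h, lintegral_tsum]
  · apply tsum_congr
    intro x
    rw [Measure.map_apply (by fun_prop) hs]
    have e : (fun ζ : InfinitePlace K → ℂ => s.indicator (1 : (InfinitePlace K → ℂ) → ℝ≥0∞)
        (fun v => ζ v + sy y x.1 v)) =
        ((fun (ζ : InfinitePlace K → ℂ) v => ζ v + sy y x.1 v) ⁻¹' s).indicator 1 := by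
      funext ζ
      by_cases h : (fun v => ζ v + sy y x.1 v) ∈ s
      · rw [Set.indicator_of_mem h, Set.indicator_of_mem (by exact h)]
        rfl
      · rw [Set.indicator_of_notMem h, Set.indicator_of_notMem (by exact h)]
    rw [e, lintegral_indicator_one]
    exact measurableSet_preimage (by fun_prop) hs
  · intro x
    apply Measurable.aemeasurable
    exact (measurable_one.indicator hs).comp (by fun_prop)

/-- unfolding of an integral of a complex function -/
theorem unfold_int (I : FI K) (y : InfinitePlace K → ℝ) (F : Set (InfinitePlace K → ℂ))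
    (hF : FS I y F) (f : (InfinitePlace K → ℂ) → ℂ) (hfm : Measurable f)
    (hf : Integrable f (mK K)) :
    Integrable (fun ζ => ∑' x : {x : K // x ∈ I}, f (fun v => ζ v + sy y x.1 v))
      ((mK K).restrict F) ∧
    ∫ ζ in F, ∑' x : {x : K // x ∈ I}, f (fun v => ζ v + sy y x.1 v) ∂mK K = ∫ b, f b ∂mK K := by
  have := countable_K K
  have hm : ∀ x : {x : K // x ∈ I}, Measurable (fun ζ : InfinitePlace K → ℂ =>
      f (fun v => ζ v + sy y x.1 v)) := fun x => hfm.comp (by fun_prop)
  have hfin : ∑' x : {x : K // x ∈ I}, ∫⁻ ζ in F, ‖f (fun v => ζ v + sy y x.1 v)‖ₑ ∂mK K ≠ ∞ := by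
    rw [← lintegral_tsum (fun x => (hm x).enorm.aemeasurable)]
    rw [← hF.2 (fun b => ‖f b‖ₑ) hfm.enorm]
    exact hf.2.ne
  constructor
  · refine ⟨?_, ?_⟩
    · have h1 : Measurable (fun ζ : InfinitePlace K → ℂ =>
          ∑' x : {x : K // x ∈ I}, f (fun v => ζ v + sy y x.1 v)) :=
        Measurable.tsum hm
      exact h1.aestronglyMeasurable
    · refine lt_of_le_of_lt ?_ (lt_top_iff_ne_top.mpr hfin)
      rw [← lintegral_tsum (fun x => (hm x).enorm.aemeasurable)]
      refine lintegral_mono fun ζ => ?_
      exact enorm_tsum_le_tsum_enorm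
  · rw [integral_tsum (fun x => (hm x).aestronglyMeasurable) hfin]
    have h2 := hasSum_integral_measure (μ := fun x : {x : K // x ∈ I} =>
      ((mK K).restrict F).map (fun ζ v => ζ v + sy y x.1 v)) (f := f)
      (by rw [← mK_sum I y F hF]; exact hf)
    rw [← mK_sum I y F hF] at h2
    rw [← h2.tsum_eq]
    apply tsum_congr
    intro x
    have hg : Measurable fun (ζ : InfinitePlace K → ℂ) v => ζ v + sy y x.1 v := by fun_prop
    rw [integral_map hg.aemeasurable hfm.aestronglyMeasurable]

end NF

end Pool.Agent.H89.BH
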