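import Pool.Agent.H29.BH.Targets2

/-!
The fourth power of a finite sum over a group, for the row M_A of the board bh_modules.
-/

set_option autoImplicit false

open NumberField NumberField.InfinitePlace MeasureTheory Set Filter Complex
open scoped nonZeroDivisors ENNReal

namespace Pool.Agent.H89.BH

open Pool.Agent.H25.HK
open Pool.Agent.H28.RC (Rep)

theorem fin_supp {G : Type*} [AddCommGroup G] (a : G → ℂ) (T : Finset G)
    (hT : ∀ x h, a x ≠ 0 → a (x + h) ≠ 0 → h ∈ T) : (Function.support a).Finite := by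
  classical
  by_cases h0 : ∃ x, a x ≠ 0
  · obtain ⟨x, hx⟩ := h0
    refine (T.image fun h => x + h).finite_toSet.subset ?_
    intro w hw
    have h1 : w - x ∈ T := hT x (w - x) hx (by simpa using hw)
    exact Finset.mem_coe.mpr (Finset.mem_image.mpr ⟨w - x, h1, by abel⟩)
  · push Not at h0
    have : Function.support a = ∅ := by
      ext x
      simp [h0 x]
    rw [this]
    exact Set.finite_empty

theorem four {G : Type*} [AddCommGroup G] (a : G → ℂ) (T : Finset G)
    (hT : ∀ x h, a x ≠ 0 → a (x + h) ≠ 0 → h ∈ T) :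
    (((‖∑' x, a x‖ ^ 4 : ℝ)) : ℂ) = ∑' x, ∑ p ∈ T, ∑ q ∈ T, ∑ s ∈ T,
      a x * a (x + p) * (starRingEnd ℂ) (a (x + q)) * (starRingEnd ℂ) (a (x + s)) := by
  set W := ∑' x, a x with hW
  have h1 : (((‖W‖ ^ 4 : ℝ)) : ℂ) = W * W * (starRingEnd ℂ) W * (starRingEnd ℂ) W := by
    have h2 : W * (starRingEnd ℂ) W = ((‖W‖ ^ 2 : ℝ) : ℂ) := by
      rw [Complex.mul_conj, Complex.normSq_eq_norm_sq]
    calc (((‖W‖ ^ 4 : ℝ)) : ℂ) = ((‖W‖ ^ 2 : ℝ) : ℂ) * ((‖W‖ ^ 2 : ℝ) : ℂ) := by
          push_cast
          ring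
      _ = _ := by
          rw [← h2]
          ring
  have h3 : ∀ x, a x ≠ 0 → W = ∑ h ∈ T, a (x + h) := by
    intro x hx
    rw [hW, ← (Equiv.addLeft x).tsum_eq a]
    rw [tsum_eq_sum (s := T)]
    · rfl
    · intro h hh
      by_contra h4
      exact hh (hT x h hx h4)
  rw [h1]
  calc W * W * (starRingEnd ℂ) W * (starRingEnd ℂ) W
      = (∑' x, a x) * (W * (starRingEnd ℂ) W * (starRingEnd ℂ) W) := by
        rw [← hW]
        ring
    _ = ∑' x, a x * (W * (starRingEnd ℂ) W * (starRingEnd ℂ) W) := by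
        rw [tsum_mul_right]
    _ = _ := by
        apply tsum_congr
        intro x
        by_cases hx : a x = 0
        · rw [hx]
          simp
        · have h5 := h3 x hx
          have h6 : ∀ A B C : G → ℂ, (∑ p ∈ T, A p) * (∑ q ∈ T, B q) * (∑ s ∈ T, C s) =
              ∑ p ∈ T, ∑ q ∈ T, ∑ s ∈ T, A p * B q * C s := by
            intro A B C
            rw [Finset.sum_mul_sum, Finset.sum_mul]
            refine Finset.sum_congr rfl fun p _ => ?_
            rw [Finset.sum_mul]
            refine Finset.sum_congr rfl fun q _ => ?_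
            rw [Finset.mul_sum]
          rw [h5, map_sum, h6, Finset.mul_sum]
          refine Finset.sum_congr rfl fun p _ => ?_
          rw [Finset.mul_sum]
          refine Finset.sum_congr rfl fun q _ => ?_
          rw [Finset.mul_sum]
          refine Finset.sum_congr rfl fun s _ => ?_
          ring

theorem split {K : Type} [Field K] [NumberField K] (f : Ideal (𝓞 K)) (L : FI K) (X : Finset K)
    (hX : Rep K f L X) (hfL : (f : FI K) * L ≤ L) (D : K → ℂ)
    (hD : (Function.support D).Finite) (hDL : ∀ x, D x ≠ 0 → x ∈ L) :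
    ∑' x, D x = ∑ r ∈ X, ∑' l : {l : K // l ∈ (f : FI K) * L}, D (r - l.1) := by
  classical
  set e : {r : K // r ∈ X} × {l : K // l ∈ (f : FI K) * L} → K := fun q => q.1.1 - q.2.1 with he
  have hneg : ∀ (J : FI K) (x : K), x ∈ J → -x ∈ J := by
    intro J x hx
    have := (J : Submodule (𝓞 K) K).neg_mem (x := x) hx
    exact this
  have hsub : ∀ (J : FI K) (x x' : K), x ∈ J → x' ∈ J → x - x' ∈ J := by
    intro J x x' hx hx'
    exact (J : Submodule (𝓞 K) K).sub_mem (x := x) (y := x') hx hx'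
  have hinj : Function.Injective e := by
    rintro ⟨⟨r, hr⟩, ⟨l, hl⟩⟩ ⟨⟨r', hr'⟩, ⟨l', hl'⟩⟩ h
    simp only [he] at h
    have hx : r - l ∈ L := hsub L _ _ (hX.1 r hr) (hfL hl)
    obtain ⟨r0, -, hu⟩ := hX.2 (r - l) hx
    have h1 : r = r0 := hu r ⟨hr, by
      have : r - l - r = -l := by ring
      rw [this]
      exact hneg _ _ hl⟩
    have h2 : r' = r0 := hu r' ⟨hr', by
      have : r - l - r' = -l' := by rw [h]; ring
      rw [this]
      exact hneg _ _ hl'⟩
    have h3 : r = r' := h1.trans h2.symm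
    subst h3
    have h4 : l = l' := by simpa using h
    subst h4
    rfl
  have hran : Function.support D ⊆ Set.range e := by
    intro x hx
    obtain ⟨r, ⟨hr, hr2⟩, -⟩ := hX.2 x (hDL x hx)
    refine ⟨⟨⟨r, hr⟩, ⟨r - x, ?_⟩⟩, ?_⟩
    · have : r - x = -(x - r) := by ring
      rw [this]
      exact hneg _ _ hr2
    · simp only [he]
      ring
  rw [← hinj.tsum_eq hran]
  have hs : Summable fun q => D (e q) := by
    apply summable_of_hasFiniteSupport
    exact (hD.preimage hinj.injOn : (e ⁻¹' (Function.support D)).Finite)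
  rw [hs.tsum_prod, tsum_fintype]
  rw [← Finset.sum_coe_sort X fun r => ∑' l : {l : K // l ∈ (f : FI K) * L}, D (r - l.1)]

end Pool.Agent.H89.BH
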