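import Pool.Agent.H89.BH.Loc
import Pool.Agent.H89.BH.Four

/-!
Expansion of the fourth power, for the row M_A of the board bh_modules
-/

set_option autoImplicit false

open NumberField NumberField.InfinitePlace MeasureTheory Set Filter Complex
open scoped nonZeroDivisors ENNReal

namespace Pool.Agent.H89.BH

open Pool.Agent.H25.HK Pool.Agent.H29.DW Pool.Agent.H29.BH
open Pool.Agent.H28.RC (Rep)
open Pool.Agent.H23.BG (c4M)

section NF

variable {K : Type} [Field K] [NumberField K]

theorem neg_memL (J : FI K) {x : K} (hx : x ∈ J) : -x ∈ J :=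
  (J : Submodule (𝓞 K) K).neg_mem (x := x) hx

theorem add_memL (J : FI K) {x x' : K} (hx : x ∈ J) (hx' : x' ∈ J) : x + x' ∈ J :=
  (J : Submodule (𝓞 K) K).add_mem (x := x) (y := x') hx hx'

theorem sub_memL (J : FI K) {x x' : K} (hx : x ∈ J) (hx' : x' ∈ J) : x - x' ∈ J :=
  (J : Submodule (𝓞 K) K).sub_mem (x := x) (y := x') hx hx'

theorem zero_memL (J : FI K) : (0 : K) ∈ J :=
  (J : Submodule (𝓞 K) K).zero_mem

/-- the product of the local functions -/
noncomputable def PE (k : InfinitePlace K → ℤ) (μ : InfinitePlace K → ℂ)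
    (A : InfinitePlace K → ℂ → ℂ → ℂ) (b z : InfinitePlace K → ℂ) : ℂ :=
  ∏ v, EE (rv v) (k v) (μ v) (A v) (b v) (z v)

/-- the product of four of them -/
noncomputable def HE (k : InfinitePlace K → ℤ) (μ : InfinitePlace K → ℂ)
    (A : InfinitePlace K → ℂ → ℂ → ℂ) (p q s b z : InfinitePlace K → ℂ) : ℂ :=
  ∏ v, gE (rv v) (k v) (μ v) (A v) (p v) (q v) (s v) (b v) (z v)

theorem HE_eq (k : InfinitePlace K → ℤ) (μ : InfinitePlace K → ℂ)
    (A : InfinitePlace K → ℂ → ℂ → ℂ) (p q s b z : InfinitePlace K → ℂ) :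
    HE k μ A p q s b z = PE k μ A b z * PE k μ A (fun v => b v + p v) z *
      (starRingEnd ℂ) (PE k μ A (fun v => b v + q v) z) *
      (starRingEnd ℂ) (PE k μ A (fun v => b v + s v) z) := by
  unfold HE PE gE
  rw [map_prod, map_prod, ← Finset.prod_mul_distrib, ← Finset.prod_mul_distrib,
    ← Finset.prod_mul_distrib]

theorem PE_ne {k : InfinitePlace K → ℤ} {μ : InfinitePlace K → ℂ} {B : ℝ}
    {A : InfinitePlace K → ℂ → ℂ → ℂ} (hA : Amp B A) {b z : InfinitePlace K → ℂ}
    (h : PE k μ A b z ≠ 0) (v : InfinitePlace K) : ‖b v‖ ≤ 1 / 8 := by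
  have h1 := Finset.prod_ne_zero_iff.mp h v (Finset.mem_univ v)
  exact (EE_ne (hA.smooth v) (hA.bound v) h1).1

theorem PE_Rl (k : InfinitePlace K → ℤ) (μ : InfinitePlace K → ℂ)
    (A : InfinitePlace K → ℂ → ℂ → ℂ) {b z : InfinitePlace K → ℂ} (hb : ∀ v, Rl (rv v) (b v))
    (hz : ∀ v, Rl (rv v) (z v)) : PE k μ A b z = PhA k μ A b z := by
  unfold PE PhA
  exact Finset.prod_congr rfl fun v _ => EE_Rl (hb v) (hz v)

theorem sum_le_tsum_L (L : FI K) (T : Finset K) (hT : ∀ x ∈ T, x ∈ L) (φ : K → ℝ≥0∞) :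
    ∑ p ∈ T, φ p ≤ ∑' p : {x : K // x ∈ L}, φ p.1 := by
  classical
  rw [← Finset.sum_subtype_of_mem φ hT]
  exact ENNReal.sum_le_tsum _

theorem fin_near (y : InfinitePlace K → ℝ) (L : FI K) (T : Finset K)
    (hT : ∀ x ∈ L, (∀ v, ‖sy y x v‖ ≤ 1 / 4) → x ∈ T) (w : InfinitePlace K → ℂ) :
    {x : K | x ∈ L ∧ ∀ v, ‖w v - sy y x v‖ ≤ 1 / 8}.Finite := by
  classical
  have h := fin_supp (fun x : K => if x ∈ L ∧ ∀ v, ‖w v - sy y x v‖ ≤ 1 / 8 then (1 : ℂ) else 0)
    T (by
      intro x t h1 h2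
      simp only [ne_eq, ite_eq_right_iff, one_ne_zero, imp_false, not_not] at h1 h2
      have h3 : t ∈ L := by
        have := sub_memL L h2.1 h1.1
        rwa [add_sub_cancel_left] at this
      refine hT t h3 fun v => ?_
      have e : sy y t v = (w v - sy y x v) - (w v - sy y (x + t) v) := by
        rw [sy_add]
        ring
      rw [e]
      calc _ ≤ ‖w v - sy y x v‖ + ‖w v - sy y (x + t) v‖ := norm_sub_le _ _
        _ ≤ 1 / 8 + 1 / 8 := add_le_add (h1.2 v) (h2.2 v)
        _ = 1 / 4 := by norm_num)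
  refine h.subset ?_
  intro x hx
  have hx' : x ∈ L ∧ ∀ v, ‖w v - sy y x v‖ ≤ 1 / 8 := hx
  simp only [Function.mem_support]
  rw [if_pos hx']
  exact one_ne_zero

/-- the finite set of the small points -/
theorem exists_T (hNB : K_NB) (L : FI K) (hL : L ≠ 0) (y : InfinitePlace K → ℝ) :
    ∃ T : Finset K, (∀ x ∈ T, x ∈ L) ∧ ∀ x ∈ L, (∀ v, ‖sy y x v‖ ≤ 1 / 4) → x ∈ T := by
  classical
  obtain ⟨C, -, hC⟩ := hNB (Module.finrank ℚ K) Module.finrank_pos
  have h := (hC K rfl L y (fun _ => 1 / 4) hL (fun _ => by norm_num)).1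
  refine ⟨insert 0 h.toFinset, ?_, ?_⟩
  · intro x hx
    rcases Finset.mem_insert.mp hx with h1 | h1
    · rw [h1]
      exact zero_memL L
    · exact ((Set.Finite.mem_toFinset h).mp h1).1
  · intro x hx h1
    by_cases h0 : x = 0
    · rw [h0]
      exact Finset.mem_insert_self _ _
    · exact Finset.mem_insert_of_mem ((Set.Finite.mem_toFinset h).mpr ⟨hx, h0, h1⟩)

/-- the coefficients -/
noncomputable def C4 (c : K → ℂ) (r p q s : K) : ℂ :=
  c r * c (r + p) * (starRingEnd ℂ) (c (r + q)) * (starRingEnd ℂ) (c (r + s))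

/-- the expansion of the fourth power -/
theorem expand (f : Ideal (𝓞 K)) (L : FI K) (y : InfinitePlace K → ℝ) (X : Finset K)
    (c : K → ℂ) (k : InfinitePlace K → ℤ) (μ : InfinitePlace K → ℂ) (B : ℝ)
    (A : InfinitePlace K → ℂ → ℂ → ℂ) (hX : Rep K f L X)
    (hper : ∀ x ∈ L, ∀ l ∈ (f : FI K) * L, c (x + l) = c x)
    (hA : Amp B A) (T : Finset K) (hTL : ∀ x ∈ T, x ∈ L)
    (hT : ∀ x ∈ L, (∀ v, ‖sy y x v‖ ≤ 1 / 4) → x ∈ T) (ζ z : InfinitePlace K → ℂ)
    (hζ : ∀ v, Rl (rv v) (ζ v)) (hz : ∀ v, Rl (rv v) (z v)) :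
    (((‖TT c L y (PhA k μ A) ζ z‖ ^ 4 : ℝ)) : ℂ) =
      ∑ r ∈ X, ∑ p ∈ T, ∑ q ∈ T, ∑ s ∈ T, C4 c r p q s *
        ∑' l : {l : K // l ∈ (f : FI K) * L},
          HE k μ A (sy y p) (sy y q) (sy y s) (fun v => sy y r v - (ζ v + sy y l.1 v)) z := by
  classical
  have hfL : (f : FI K) * L ≤ L := by
    calc (f : FI K) * L ≤ 1 * L := by
          gcongr
          exact FractionalIdeal.coeIdeal_le_one
      _ = L := one_mul L
  set a : K → ℂ := fun x => if x ∈ L then c x * PE k μ A (fun v => sy y x v - ζ v) z else 0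
    with ha
  have ha1 : ∀ x, a x ≠ 0 → x ∈ L ∧ ∀ v, ‖sy y x v - ζ v‖ ≤ 1 / 8 := by
    intro x hx
    simp only [ha] at hx
    split_ifs at hx with h1
    · exact ⟨h1, fun v => PE_ne hA (right_ne_zero_of_mul hx) v⟩
    · exact absurd rfl hx
  have haT : ∀ x h, a x ≠ 0 → a (x + h) ≠ 0 → h ∈ T := by
    intro x t h1 h2
    obtain ⟨h3, h4⟩ := ha1 x h1
    obtain ⟨h5, h6⟩ := ha1 _ h2
    have h7 : t ∈ L := by
      have := sub_memL L h5 h3
      rwa [add_sub_cancel_left] at this
    refine hT t h7 fun v => ?_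
    have e : sy y t v = (sy y (x + t) v - ζ v) - (sy y x v - ζ v) := by
      rw [sy_add]
      ring
    rw [e]
    calc _ ≤ ‖sy y (x + t) v - ζ v‖ + ‖sy y x v - ζ v‖ := norm_sub_le _ _
      _ ≤ 1 / 8 + 1 / 8 := add_le_add (h6 v) (h4 v)
      _ = 1 / 4 := by norm_num
  have hTT : TT c L y (PhA k μ A) ζ z = ∑' x, a x := by
    unfold TT
    have h1 := tsum_subtype {x : K | x ∈ L}
      (fun x => c x * PhA k μ A (fun v => sy y x v - ζ v) z)
    refine Eq.trans h1 ?_
    apply tsum_congr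
    intro x
    simp only [ha, Set.indicator, Set.mem_ofPred_eq]
    split_ifs with h2
    · rw [PE_Rl k μ A (fun v => ?_) hz]
      intro h
      rw [Complex.sub_im, Rl_sy y x v h, hζ v h, sub_zero]
    · rfl
  rw [hTT, four a T haT]
  have hfin := fin_supp a T haT
  rw [split f L X hX hfL _ ?_ ?_]
  · refine Finset.sum_congr rfl fun r hr => ?_
    have hsum : ∀ p q s : K, Summable fun l : {l : K // l ∈ (f : FI K) * L} =>
        HE k μ A (sy y p) (sy y q) (sy y s) (fun v => sy y r v - (ζ v + sy y l.1 v)) z := by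
      intro p q s
      apply summable_of_hasFiniteSupport
      have h1 := fin_near y L T hT (fun v => sy y r v - ζ v)
      have h2 := h1.preimage (f := fun l : {l : K // l ∈ (f : FI K) * L} => l.1)
        Subtype.val_injective.injOn
      refine h2.subset ?_
      intro l hl
      refine ⟨hfL l.2, fun v => ?_⟩
      have h3 : HE k μ A (sy y p) (sy y q) (sy y s)
          (fun v => sy y r v - (ζ v + sy y l.1 v)) z ≠ 0 := hl
      rw [HE_eq] at h3
      have h4 := left_ne_zero_of_mul (left_ne_zero_of_mul (left_ne_zero_of_mul h3))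
      have h5 := PE_ne hA h4 v
      have e : sy y r v - ζ v - sy y l.1 v = sy y r v - (ζ v + sy y l.1 v) := by ring
      rw [e]
      exact h5
    have hterm : ∀ l : {l : K // l ∈ (f : FI K) * L}, ∀ p ∈ T, ∀ q ∈ T, ∀ s ∈ T,
        a (r - l.1) * a (r - l.1 + p) * (starRingEnd ℂ) (a (r - l.1 + q)) *
          (starRingEnd ℂ) (a (r - l.1 + s)) = C4 c r p q s *
        HE k μ A (sy y p) (sy y q) (sy y s) (fun v => sy y r v - (ζ v + sy y l.1 v)) z := by
      intro l p hp q hq s hs
      have hrL : r ∈ L := hX.1 r hr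
      have hlL : l.1 ∈ L := hfL l.2
      have key : ∀ t ∈ L, a (r - l.1 + t) = c (r + t) *
          PE k μ A (fun v => sy y r v - (ζ v + sy y l.1 v) + sy y t v) z := by
        intro t ht
        have h1 : r - l.1 + t ∈ L := add_memL L (sub_memL L hrL hlL) ht
        simp only [ha]
        rw [if_pos h1]
        congr 1
        · have e : r - l.1 + t = (r + t) + (-l.1) := by ring
          rw [e]
          exact hper _ (add_memL L hrL ht) _ (neg_memL _ l.2)
        · congr 1
          funext v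
          rw [sy_add, sy_sub]
          ring
      have key0 : a (r - l.1) = c r *
          PE k μ A (fun v => sy y r v - (ζ v + sy y l.1 v)) z := by
        have := key 0 (zero_memL L)
        rw [add_zero, add_zero] at this
        rw [this]
        congr 2
        funext v
        rw [sy_zero, add_zero]
      rw [key0, key p (hTL p hp), key q (hTL q hq), key s (hTL s hs), HE_eq]
      unfold C4
      simp only [map_mul]
      ring
    have e1 : ∀ l : {l : K // l ∈ (f : FI K) * L},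
        ∑ p ∈ T, ∑ q ∈ T, ∑ s ∈ T, a (r - l.1) * a (r - l.1 + p) *
          (starRingEnd ℂ) (a (r - l.1 + q)) * (starRingEnd ℂ) (a (r - l.1 + s)) =
        ∑ p ∈ T, ∑ q ∈ T, ∑ s ∈ T, C4 c r p q s *
          HE k μ A (sy y p) (sy y q) (sy y s) (fun v => sy y r v - (ζ v + sy y l.1 v)) z := by
      intro l
      refine Finset.sum_congr rfl fun p hp => Finset.sum_congr rfl fun q hq =>
        Finset.sum_congr rfl fun s hs => ?_
      exact hterm l p hp q hq s hs
    rw [tsum_congr e1]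
    rw [Summable.tsum_finsetSum fun p _ => summable_sum fun q _ => summable_sum fun s _ =>
      (hsum p q s).mul_left _]
    refine Finset.sum_congr rfl fun p _ => ?_
    rw [Summable.tsum_finsetSum fun q _ => summable_sum fun s _ => (hsum p q s).mul_left _]
    refine Finset.sum_congr rfl fun q _ => ?_
    rw [Summable.tsum_finsetSum fun s _ => (hsum p q s).mul_left _]
    refine Finset.sum_congr rfl fun s _ => ?_
    rw [tsum_mul_left]
  · refine hfin.subset ?_
    intro x hx
    simp only [Function.mem_support] at hx ⊢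
    intro h
    apply hx
    simp [h]
  · intro x hx
    by_contra h
    apply hx
    have h1 : a x = 0 := by
      by_contra h2
      exact h (ha1 x h2).1
    simp [h1]

end NF

end Pool.Agent.H89.BH
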