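import Pool.Agent.H89.BH.Base

/-!
The local functions, for the row M_A of the board bh_modules.
-/

set_option autoImplicit false

open NumberField NumberField.InfinitePlace MeasureTheory Set Filter Complex
open scoped nonZeroDivisors ENNReal

namespace Pool.Agent.H89.BH

open Pool.Agent.H25.HK Pool.Agent.H29.DW Pool.Agent.H29.BH

open scoped Classical in
/-- the amplitude times the quasi-character, cut off to the real-type points -/
noncomputable def EE (r : Bool) (k : ℤ) (μ : ℂ) (A : ℂ → ℂ → ℂ) (b z : ℂ) : ℂ :=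
  if Rl r b ∧ Rl r z then A b z * Gm k μ (1 + b / z) else 0

/-- the product of the four factors -/
noncomputable def gE (r : Bool) (k : ℤ) (μ : ℂ) (A : ℂ → ℂ → ℂ) (p q s : ℂ) (b z : ℂ) : ℂ :=
  EE r k μ A b z * EE r k μ A (b + p) z * (starRingEnd ℂ) (EE r k μ A (b + q) z) *
    (starRingEnd ℂ) (EE r k μ A (b + s) z)

theorem measurable_zpow_c (k : ℤ) : Measurable fun w : ℂ => w ^ k := by
  cases k with
  | ofNat n =>
    simp only [Int.ofNat_eq_natCast, zpow_natCast]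
    fun_prop
  | negSucc n =>
    simp only [zpow_negSucc]
    fun_prop

theorem measurable_Gm (k : ℤ) (μ : ℂ) : Measurable (Gm k μ) := by
  unfold Gm
  apply Measurable.mul
  · exact (measurable_zpow_c k).comp (by fun_prop)
  · fun_prop

theorem norm_Gm_le {k : ℤ} {μ w : ℂ} (hμ : |μ.re| ≤ 8) (h1 : 3 / 4 ≤ ‖w‖) (h2 : ‖w‖ ≤ 5 / 4) :
    ‖Gm k μ w‖ ≤ Real.exp 8 := by
  have hw : w ≠ 0 := by
    intro h
    rw [h, norm_zero] at h1
    norm_num at h1
  have hw' : 0 < ‖w‖ := norm_pos_iff.mpr hw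
  unfold Gm
  rw [norm_mul, norm_zpow]
  have h3 : ‖w / ((‖w‖ : ℝ) : ℂ)‖ = 1 := by
    rw [norm_div, Complex.norm_real, norm_norm]
    exact div_self hw'.ne'
  rw [h3, one_zpow, one_mul, Complex.norm_exp]
  apply Real.exp_le_exp.mpr
  rw [Complex.mul_re, Complex.ofReal_re, Complex.ofReal_im, mul_zero, sub_zero]
  have h4 : |Real.log ‖w‖| ≤ 1 := by
    rw [abs_le]
    constructor
    · have := Real.one_sub_inv_le_log_of_pos hw'
      have h5 : ‖w‖⁻¹ ≤ 4 / 3 := by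
        rw [inv_le_comm₀ hw' (by norm_num)]
        linarith
      linarith
    · have := Real.log_le_sub_one_of_pos hw'
      linarith
  calc μ.re * Real.log ‖w‖ ≤ |μ.re * Real.log ‖w‖| := le_abs_self _
    _ = |μ.re| * |Real.log ‖w‖| := abs_mul _ _
    _ ≤ 8 * 1 := mul_le_mul hμ h4 (abs_nonneg _) (by norm_num)
    _ = 8 := by norm_num

section Loc

variable {r : Bool} {k : ℤ} {μ : ℂ} {A : ℂ → ℂ → ℂ} {B : ℝ}

theorem measurable_EE (hA : Measurable (fun q : ℂ × ℂ => A q.1 q.2)) :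
    Measurable (fun q : ℂ × ℂ => EE r k μ A q.1 q.2) := by
  unfold EE
  apply Measurable.ite
  · exact ((measurable_fst (meas_Rl r)).inter (measurable_snd (meas_Rl r)))
  · exact hA.mul ((measurable_Gm k μ).comp (by fun_prop))
  · exact measurable_const

theorem measurable_gE (hA : Measurable (fun q : ℂ × ℂ => A q.1 q.2)) (p q s : ℂ) :
    Measurable (fun w : ℂ × ℂ => gE r k μ A p q s w.1 w.2) := by
  have h := measurable_EE (r := r) (k := k) (μ := μ) hA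
  have h1 : ∀ a : ℂ, Measurable (fun w : ℂ × ℂ => EE r k μ A (w.1 + a) w.2) := fun a =>
    h.comp (f := fun w : ℂ × ℂ => (w.1 + a, w.2)) (by fun_prop)
  unfold gE
  exact ((h.mul (h1 p)).mul (Complex.continuous_conj.measurable.comp (h1 q))).mul
    (Complex.continuous_conj.measurable.comp (h1 s))

theorem EE_ne (hs : ∀ b, Rl r b → ‖b‖ ≤ 1 / 8 → Sm r B (A b))
    (hb : ∀ b z, ‖A b z‖ ≤ B ∧ (A b z ≠ 0 → ‖b‖ ≤ 1 / 8 ∧ ‖z‖ ≤ 3)) {b z : ℂ}
    (h : EE r k μ A b z ≠ 0) : ‖b‖ ≤ 1 / 8 ∧ 1 / 2 ≤ ‖z‖ ∧ ‖z‖ ≤ 3 ∧ Rl r b ∧ Rl r z := by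
  unfold EE at h
  split_ifs at h with h1
  · have h2 : A b z ≠ 0 := left_ne_zero_of_mul h
    have h3 := (hb b z).2 h2
    have h4 := (hs b h1.1 h3.1).supp z h1.2 h2
    exact ⟨h3.1, h4.1, h4.2, h1⟩
  · exact absurd rfl h

theorem norm_EE_le (hμ : |μ.re| ≤ 8) (hs : ∀ b, Rl r b → ‖b‖ ≤ 1 / 8 → Sm r B (A b))
    (hb : ∀ b z, ‖A b z‖ ≤ B ∧ (A b z ≠ 0 → ‖b‖ ≤ 1 / 8 ∧ ‖z‖ ≤ 3)) (b z : ℂ) :
    ‖EE r k μ A b z‖ ≤ B * Real.exp 8 := by
  have hB : 0 ≤ B := (norm_nonneg _).trans (hb 0 0).1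
  by_cases h : EE r k μ A b z = 0
  · rw [h, norm_zero]
    positivity
  · obtain ⟨h1, h2, h3, h4⟩ := EE_ne hs hb h
    have hz : 0 < ‖z‖ := by linarith
    have h5 : ‖b / z‖ ≤ 1 / 4 := by
      rw [norm_div, div_le_iff₀ hz]
      linarith
    have h6 : ‖(1 : ℂ) + b / z‖ ≤ 5 / 4 := by
      have := norm_add_le (1 : ℂ) (b / z)
      rw [norm_one] at this
      linarith
    have h7 : 3 / 4 ≤ ‖(1 : ℂ) + b / z‖ := by
      have := norm_sub_norm_le (1 : ℂ) (-(b / z))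
      rw [norm_one, norm_neg, sub_neg_eq_add] at this
      linarith
    unfold EE
    rw [if_pos h4, norm_mul]
    exact mul_le_mul (hb b z).1 (norm_Gm_le hμ h7 h6) (norm_nonneg _) hB

theorem gE_bound (hμ : |μ.re| ≤ 8) (hs : ∀ b, Rl r b → ‖b‖ ≤ 1 / 8 → Sm r B (A b))
    (hb : ∀ b z, ‖A b z‖ ≤ B ∧ (A b z ≠ 0 → ‖b‖ ≤ 1 / 8 ∧ ‖z‖ ≤ 3)) (p q s b z : ℂ) :
    ‖gE r k μ A p q s b z‖ ≤ max ((B * Real.exp 8) ^ 4) 3 ∧
    (gE r k μ A p q s b z ≠ 0 → ‖b‖ ≤ max ((B * Real.exp 8) ^ 4) 3 ∧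
      ‖z‖ ≤ max ((B * Real.exp 8) ^ 4) 3) := by
  have hB : 0 ≤ B := (norm_nonneg _).trans (hb 0 0).1
  have h1 : ∀ c, ‖EE r k μ A c z‖ ≤ B * Real.exp 8 := fun c => norm_EE_le hμ hs hb c z
  constructor
  · refine le_trans ?_ (le_max_left _ _)
    unfold gE
    rw [norm_mul, norm_mul, norm_mul, RCLike.norm_conj, RCLike.norm_conj]
    calc _ ≤ (B * Real.exp 8) * (B * Real.exp 8) * (B * Real.exp 8) * (B * Real.exp 8) := by
          gcongr <;> exact h1 _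
      _ = _ := by ring
  · intro h
    have h2 : EE r k μ A b z ≠ 0 := by
      intro h3
      apply h
      unfold gE
      rw [h3]
      ring
    obtain ⟨h4, -, h5, -⟩ := EE_ne hs hb h2
    exact ⟨h4.trans ((by norm_num : (1 : ℝ) / 8 ≤ 3).trans (le_max_right _ _)),
      h5.trans (le_max_right _ _)⟩

theorem EE_Rl {b z : ℂ} (hb : Rl r b) (hz : Rl r z) :
    EE r k μ A b z = A b z * Gm k μ (1 + b / z) := by
  unfold EE
  rw [if_pos ⟨hb, hz⟩]

theorem Rl_add {a b : ℂ} (ha : Rl r a) (hb : Rl r b) : Rl r (a + b) := by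
  intro h
  rw [Complex.add_im, ha h, hb h, add_zero]

theorem Jv_eq (p q s : ℂ) (hp : Rl r p) (hq : Rl r q) (hs : Rl r s) :
    ∫⁻ b, ENNReal.ofReal ‖∫ z, gE r k μ A p q s b z ∂mz r‖ ∂mz r =
      Jv r k μ A (qd p q s) := by
  unfold Jv
  apply lintegral_congr_ae
  filter_upwards [ae_Rl r] with b hb
  congr 2
  apply integral_congr_ae
  filter_upwards [ae_Rl r] with z hz
  unfold gE g4 qd
  rw [EE_Rl hb hz, EE_Rl (Rl_add hb hp) hz, EE_Rl (Rl_add hb hq) hz, EE_Rl (Rl_add hb hs) hz]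
  simp only [Matrix.cons_val_zero, Matrix.cons_val_one, Matrix.cons_val, add_zero, map_mul]
  ring

end Loc

end Pool.Agent.H89.BH
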